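import Mathlib
import Pool.Agent.Y667.BKP.Main

/-!
# Rational Tate modules: cocycles that are coboundaries at each level
-/

set_option autoImplicit false

namespace Pool.Agent.R390.Abs

variable {B G : Type} [AddCommGroup B]

/-- the fixed elements of `H` -/
def FixIn (H : AddSubgroup B) (a : G → B →+ B) : Set B := {P | P ∈ H ∧ ∀ σ, a σ P = P}

/-- a cocycle with values in the rational Tate module is a coboundary if it is one at each level and
the group of fixed points is finite -/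
theorem lift_sub (H : AddSubgroup B) (a : G → B →+ B) (ha : ∀ σ, ∀ P ∈ H, a σ P ∈ H) {p : ℕ}
    (hp : p.Prime) (hfin : (FixIn H a).Finite) (c : G → ℕ → B) (hcH : ∀ σ n, c σ n ∈ H)
    (hc : ∀ σ n, p • c σ (n + 1) = c σ n)
    (htor : ∀ n, ∃ K : ℕ, ∀ σ, (p ^ K : ℕ) • c σ n = 0)
    (hcob : ∀ n, ∃ P ∈ H, ∀ σ, c σ n = a σ P - P) :
    ∃ x : ℕ → B, (∀ n, x n ∈ H ∧ p • x (n + 1) = x n ∧ ∃ m : ℕ, (p ^ m : ℕ) • x n = 0) ∧
      ∀ σ n, c σ n = a σ (x n) - x n := by
  let a' : G → H →+ H := fun σ => ((a σ).comp H.subtype).codRestrict H (fun P => ha σ P P.2)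
  have ha' : ∀ σ (P : H), ((a' σ P : H) : B) = a σ P := fun σ P => rfl
  have hFix : Finite (Pool.Agent.Y667.BKP.Fix a') := by
    have := hfin.to_subtype
    refine Finite.of_injective (β := FixIn H a)
      (fun P => ⟨((P : H) : B), (P : H).2, fun σ => ?_⟩) (fun P Q h => ?_)
    · have h1 : a' σ (P : H) = (P : H) := P.2 σ
      have h2 := congrArg Subtype.val h1
      exact h2
    · have h1 : ((P : H) : B) = ((Q : H) : B) := congrArg (fun z : FixIn H a => (z : B)) h
      exact Subtype.ext (Subtype.ext h1)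
  obtain ⟨x, hx1, hx2⟩ := Pool.Agent.Y667.BKP.lift (a := a') hp
    (fun σ n => (⟨c σ n, hcH σ n⟩ : H))
    (fun σ n => Subtype.ext (hc σ n))
    (fun n => by
      obtain ⟨K, hK⟩ := htor n
      exact ⟨K, fun σ => Subtype.ext (hK σ)⟩)
    (fun n => by
      obtain ⟨P, hPH, hP⟩ := hcob n
      exact ⟨⟨P, hPH⟩, fun σ => Subtype.ext (hP σ)⟩)
  refine ⟨fun n => (x n : B), fun n => ⟨(x n).2, ?_, ?_⟩, fun σ n => ?_⟩
  · exact congrArg Subtype.val (hx1 n).1
  · obtain ⟨m, hm⟩ := (hx1 n).2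
    exact ⟨m, congrArg Subtype.val hm⟩
  · exact congrArg Subtype.val (hx2 σ n)

/-- no invariants in the rational Tate module if the group of fixed points is finite -/
theorem no_inv (H : AddSubgroup B) (a : G → B →+ B) {p : ℕ}
    (hfin : (FixIn H a).Finite) (x : ℕ → B) (hxH : ∀ n, x n ∈ H)
    (hx : ∀ n, p • x (n + 1) = x n) (htor : ∀ n, ∃ m : ℕ, (p ^ m : ℕ) • x n = 0)
    (hfix : ∀ σ n, a σ (x n) = x n) : ∀ n, x n = 0 := by
  have hr : (Set.range x).Finite := hfin.subset (by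
    rintro _ ⟨n, rfl⟩
    exact ⟨hxH n, fun σ => hfix σ n⟩)
  have hex : ∀ y ∈ Set.range x, ∃ k : ℕ, (p ^ k : ℕ) • y = 0 := by
    rintro y ⟨n, rfl⟩
    exact htor n
  choose! k hk using hex
  obtain ⟨K, hK⟩ := (hr.image k).bddAbove
  have hpow : ∀ n j : ℕ, (p ^ j : ℕ) • x (n + j) = x n := by
    intro n j
    induction j with
    | zero => simp
    | succ j ih => rw [pow_succ, mul_smul, ← add_assoc, hx, ih]
  intro n
  have h1 := hk _ (Set.mem_range_self (n + K))
  have h2 : k (x (n + K)) ≤ K := hK ⟨_, Set.mem_range_self (n + K), rfl⟩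
  rw [← hpow n K, ← Nat.sub_add_cancel h2, pow_add, mul_smul, Nat.sub_add_cancel h2, h1, smul_zero]

/-- a locally constant function is bounded in the sense of torsion -/
theorem bdd_tor {X : Type} [TopologicalSpace X] [CompactSpace X] {c : X → B} {p : ℕ}
    (hc : IsLocallyConstant c) (ht : ∀ σ, ∃ m : ℕ, (p ^ m : ℕ) • c σ = 0) :
    ∃ K : ℕ, ∀ σ, (p ^ K : ℕ) • c σ = 0 := by
  have hfin : (Set.range c).Finite := hc.range_finite
  have hex : ∀ y ∈ Set.range c, ∃ k : ℕ, (p ^ k : ℕ) • y = 0 := by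
    rintro y ⟨σ, rfl⟩
    exact ht σ
  choose! k hk using hex
  obtain ⟨K, hK⟩ := (hfin.image k).bddAbove
  refine ⟨K, fun σ => ?_⟩
  have h1 := hk _ (Set.mem_range_self σ)
  have h2 : k (c σ) ≤ K := hK ⟨_, Set.mem_range_self σ, rfl⟩
  rw [← Nat.sub_add_cancel h2, pow_add, mul_smul, h1, smul_zero]

end Pool.Agent.R390.Abs
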