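import Pool.Agent.W401.Cheb.Main
import Pool.Agent.Y715.Sel2

/-!
# Gaussian primes of norm congruent to `1` modulo `2 ^ N` for which `1 + i` is not a square
-/

set_option autoImplicit false

open Polynomial NumberField

namespace Pool.Agent.R390.IP

theorem roots_of (M : ℕ) {L : Type} [Field L] [NumberField L]
    (hsp : ((cyclotomic (2 ^ (M + 2)) ℚ * (X ^ 4 - 2 * X ^ 2 + 2)).map (algebraMap ℚ L)).Splits) :
    ∃ ζ r : L, IsPrimitiveRoot ζ (2 ^ (M + 2)) ∧ r ^ 2 = 1 + ζ ^ (2 ^ M) := by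
  have hm : (X ^ 4 - 2 * X ^ 2 + 2 : ℚ[X]).Monic := by monicity!
  have hdeg : (X ^ 4 - 2 * X ^ 2 + 2 : ℚ[X]).degree ≠ 0 := by
    have : (X ^ 4 - 2 * X ^ 2 + 2 : ℚ[X]).degree = 4 := by compute_degree!
    rw [this]; decide
  have hf0 : cyclotomic (2 ^ (M + 2)) ℚ * (X ^ 4 - 2 * X ^ 2 + 2) ≠ 0 :=
    mul_ne_zero (cyclotomic_ne_zero _ _) hm.ne_zero
  have hmap : (cyclotomic (2 ^ (M + 2)) ℚ * (X ^ 4 - 2 * X ^ 2 + 2)).map (algebraMap ℚ L) ≠ 0 := by
    rw [Ne, Polynomial.map_eq_zero]; exact hf0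
  have h1 : ((cyclotomic (2 ^ (M + 2)) ℚ).map (algebraMap ℚ L)).Splits :=
    hsp.of_dvd hmap (Polynomial.map_dvd _ (dvd_mul_right _ _))
  have h2 : ((X ^ 4 - 2 * X ^ 2 + 2 : ℚ[X]).map (algebraMap ℚ L)).Splits :=
    hsp.of_dvd hmap (Polynomial.map_dvd _ (dvd_mul_left _ _))
  obtain ⟨ζ, hζ⟩ := h1.exists_eval_eq_zero (by
    rw [degree_map]
    exact (degree_cyclotomic_pos _ _ (by positivity)).ne')
  obtain ⟨r, hr⟩ := h2.exists_eval_eq_zero (by rw [degree_map]; exact hdeg)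
  have hprim : IsPrimitiveRoot ζ (2 ^ (M + 2)) := by
    have : NeZero ((2 ^ (M + 2) : ℕ) : L) := ⟨by
      rw [Nat.cast_pow]
      exact pow_ne_zero _ (by norm_num)⟩
    rw [map_cyclotomic] at hζ
    exact (isRoot_cyclotomic_iff).1 hζ
  have hr' : (r ^ 2 - 1) ^ 2 = -1 := by
    have h3 : r ^ 4 - 2 * r ^ 2 + 2 = 0 := by simpa using hr
    linear_combination h3
  have hI : (ζ ^ (2 ^ M)) ^ 2 = -1 := by
    rw [← pow_mul, ← pow_succ]
    have h4 : (ζ ^ (2 ^ (M + 1))) ^ 2 = 1 := by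
      rw [← pow_mul, ← pow_succ]
      exact hprim.pow_eq_one
    have h5 : ζ ^ (2 ^ (M + 1)) ≠ 1 := hprim.pow_ne_one_of_pos_of_lt (by positivity)
      (Nat.pow_lt_pow_right (by norm_num) (by omega))
    have h6 : (ζ ^ (2 ^ (M + 1)) - 1) * (ζ ^ (2 ^ (M + 1)) + 1) = 0 := by linear_combination h4
    rcases mul_eq_zero.1 h6 with h7 | h7
    · exact absurd (sub_eq_zero.1 h7) h5
    · exact eq_neg_of_add_eq_zero_left h7
  have h8 : (r ^ 2 - 1 - ζ ^ (2 ^ M)) * (r ^ 2 - 1 + ζ ^ (2 ^ M)) = 0 := by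
    linear_combination hr' - hI
  rcases mul_eq_zero.1 h8 with h9 | h9
  · exact ⟨ζ, r, hprim, by linear_combination h9⟩
  · refine ⟨ζ⁻¹, r, hprim.inv, ?_⟩
    have h10 : ζ ^ (2 ^ M) ≠ 0 := fun h => by
      rw [h] at hI
      norm_num at hI
    have h11 : (ζ⁻¹) ^ (2 ^ M) = -(ζ ^ (2 ^ M)) := by
      rw [inv_pow]
      apply mul_left_cancel₀ h10
      rw [mul_inv_cancel₀ h10]
      linear_combination hI
    rw [h11]
    linear_combination h9

/-- the field -/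
theorem exists_L (M : ℕ) : ∃ (L : Type) (_ : Field L) (_ : NumberField L)
    (_ : IsGalois ℚ L) (ζ r : L), IsPrimitiveRoot ζ (2 ^ (M + 2)) ∧ r ^ 2 = 1 + ζ ^ (2 ^ M) := by
  classical
  set f : ℚ[X] := cyclotomic (2 ^ (M + 2)) ℚ * (X ^ 4 - 2 * X ^ 2 + 2) with hf
  have hspl : IsSplittingField ℚ f.SplittingField f := by
    convert IsSplittingField.splittingField f
    exact Subsingleton.elim _ _
  have hnor : Normal ℚ f.SplittingField := Normal.of_isSplittingField f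
  have hsep : Algebra.IsSeparable ℚ f.SplittingField :=
    Algebra.IsAlgebraic.isSeparable_of_perfectField
  have hgal : IsGalois ℚ f.SplittingField := ⟨⟩
  have hnum : NumberField f.SplittingField :=
    { to_charZero := inferInstance, to_finiteDimensional := inferInstance }
  obtain ⟨ζ, r, h1, h2⟩ := roots_of M (L := f.SplittingField) hspl.splits'
  exact ⟨f.SplittingField, inferInstance, hnum, hgal, ζ, r, h1, h2⟩

/-- The automorphism: it fixes `ζ`, and not `√(1 + i)`. -/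
theorem exists_g {L : Type} [Field L] [NumberField L] [IsGalois ℚ L] {M : ℕ}
    {ζ r : L} (hζ : IsPrimitiveRoot ζ (2 ^ (M + 3))) (hr : r ^ 2 = 1 + ζ ^ (2 ^ (M + 1))) :
    ∃ g : Gal(L/ℚ), g ζ = ζ ∧ g r = -r := by
  have hpos : 0 < 2 ^ (M + 3) := by positivity
  have hζ0 : ζ ≠ 0 := hζ.ne_zero hpos.ne'
  have hconj : ∀ μ : L, IsPrimitiveRoot μ (2 ^ (M + 3)) → ∃ σ : Gal(L/ℚ), σ ζ = μ := by
    intro μ hμ
    have h1 := cyclotomic_eq_minpoly_rat hζ hpos
    have h2 := cyclotomic_eq_minpoly_rat hμ hpos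
    have h3 : aeval ζ (minpoly ℚ μ) = 0 := by
      rw [← h2, h1]
      exact minpoly.aeval _ _
    exact minpoly.exists_algEquiv_of_root (Algebra.IsAlgebraic.isAlgebraic μ) h3
  obtain ⟨τ, hτ⟩ := hconj (ζ ^ 5) (hζ.pow_of_coprime 5 (Nat.Coprime.pow_right _ (by norm_num)))
  obtain ⟨c, hc⟩ := hconj ζ⁻¹ hζ.inv
  -- the eighth root of unity
  obtain ⟨w, hw⟩ : ∃ w : L, w = ζ ^ (2 ^ M) := ⟨_, rfl⟩
  have hwI : ζ ^ (2 ^ (M + 1)) = w ^ 2 := by rw [hw, ← pow_mul, ← pow_succ]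
  have hw4 : w ^ 4 = -1 := by
    have h4 : (w ^ 4) ^ 2 = 1 := by
      rw [hw, ← pow_mul, ← pow_mul]
      have : 2 ^ M * (4 * 2) = 2 ^ (M + 3) := by rw [pow_add]; norm_num
      rw [this]
      exact hζ.pow_eq_one
    have h5 : w ^ 4 ≠ 1 := by
      rw [hw, ← pow_mul]
      have : 2 ^ M * 4 = 2 ^ (M + 2) := by rw [pow_add]; norm_num
      rw [this]
      exact hζ.pow_ne_one_of_pos_of_lt (by positivity) (Nat.pow_lt_pow_right (by norm_num) (by omega))
    have h6 : (w ^ 4 - 1) * (w ^ 4 + 1) = 0 := by linear_combination h4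
    rcases mul_eq_zero.1 h6 with h7 | h7
    · exact absurd (sub_eq_zero.1 h7) h5
    · exact eq_neg_of_add_eq_zero_left h7
  have hw0 : w ≠ 0 := by rw [hw]; exact pow_ne_zero _ hζ0
  rw [hwI] at hr
  have hτw : τ w = -w := by
    rw [hw, map_pow, hτ, ← pow_mul, mul_comm, pow_mul, ← hw]
    linear_combination w * hw4
  have hcw : c w = w⁻¹ := by
    rw [hw, map_pow, hc, inv_pow]
  have hcw' : c w = -w ^ 3 := by
    rw [hcw]
    apply mul_left_cancel₀ hw0
    rw [mul_inv_cancel₀ hw0]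
    linear_combination hw4
  -- `r c(r) = ± √2`
  have hr0 : r ≠ 0 := by
    intro h
    rw [h] at hr
    have h1 : w ^ 2 = -1 := by linear_combination -hr
    have h2 : w ^ 4 = 1 := by linear_combination (w ^ 2 - 1) * h1
    rw [hw4] at h2
    norm_num at h2
  have hcr : (c r) ^ 2 = 1 - w ^ 2 := by
    rw [← map_pow, hr, map_add, map_one, map_pow, hcw']
    linear_combination w ^ 2 * hw4
  have hcr0 : c r ≠ 0 := (map_ne_zero c).2 hr0
  have hprod : (r * c r - (w - w ^ 3)) * (r * c r + (w - w ^ 3)) = 0 := by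
    have h1 : (r * c r) ^ 2 = 1 - w ^ 4 := by
      rw [mul_pow, hr, hcr]; ring
    linear_combination h1 + (1 - w ^ 2) * hw4
  have hτs : τ (r * c r) = -(r * c r) := by
    rcases mul_eq_zero.1 hprod with h | h
    · have h1 : r * c r = w - w ^ 3 := sub_eq_zero.1 h
      rw [h1, map_sub, map_pow, hτw]; ring
    · have h1 : r * c r = -(w - w ^ 3) := eq_neg_of_add_eq_zero_left h
      rw [h1, map_neg, map_sub, map_pow, hτw]; ring
  have hτr : (τ r - r) * (τ r + r) = 0 := by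
    have h1 : (τ r) ^ 2 = r ^ 2 := by
      rw [← map_pow, hr, map_add, map_one, map_pow, hτw]; ring
    linear_combination h1
  have hcomm : c (τ r) = -τ (c r) := by
    rw [map_mul] at hτs
    rcases mul_eq_zero.1 hτr with h | h
    · have h1 : τ r = r := sub_eq_zero.1 h
      rw [h1] at hτs ⊢
      apply mul_left_cancel₀ hr0
      linear_combination hτs
    · have h1 : τ r = -r := eq_neg_of_add_eq_zero_left h
      rw [h1] at hτs
      rw [h1, map_neg, neg_inj]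
      apply mul_left_cancel₀ hr0
      linear_combination hτs
  refine ⟨(τ * c)⁻¹ * (c * τ), ?_, ?_⟩
  · show (τ * c)⁻¹ (c (τ ζ)) = ζ
    have h1 : c (τ ζ) = (τ * c) ζ := by
      show c (τ ζ) = τ (c ζ)
      rw [hτ, hc, map_pow, map_inv₀, hτ, hc, inv_pow]
    rw [h1]
    exact (τ * c).symm_apply_apply ζ
  · show (τ * c)⁻¹ (c (τ r)) = -r
    rw [hcomm, map_neg, neg_inj]
    exact (τ * c).symm_apply_apply r

open Pool.Agent.W401.Cheb (xp HasFrob infinite_frob)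
open Pool.Agent.Y715.Qr (qs Sqm qs_zero)
open Pool.Agent.Y715.Rec (Pr)

/-- a Gaussian integer of norm `1` modulo `8` is associated to one that is `1` modulo `4` -/
theorem exists_unit (q : GaussianInt) (h : (8 : ℤ) ∣ q.norm - 1) :
    ∃ u : GaussianInt, IsUnit u ∧ (4 : ℤ) ∣ (u * q).re - 1 ∧ (4 : ℤ) ∣ (u * q).im := by
  obtain ⟨a, b⟩ := q
  have hn : (⟨a, b⟩ : GaussianInt).norm = a * a + b * b := by
    rw [Zsqrtd.norm_def]; ring
  rw [hn] at h
  have key : ∀ x y : ZMod 8, x * x + y * y = 1 →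
      ((x = 1 ∨ x = 3 ∨ x = 5 ∨ x = 7) ∧ (y = 0 ∨ y = 4)) ∨
      ((y = 1 ∨ y = 3 ∨ y = 5 ∨ y = 7) ∧ (x = 0 ∨ x = 4)) := by decide
  have h1 : ((a : ZMod 8)) * a + b * b = 1 := by
    have h2 : ((a * a + b * b - 1 : ℤ) : ZMod 8) = 0 :=
      (ZMod.intCast_zmod_eq_zero_iff_dvd _ 8).2 (by exact_mod_cast h)
    push_cast at h2
    linear_combination h2
  have hcast : ∀ (x : ℤ) (m : ℕ), ((x : ZMod 8) = (m : ZMod 8)) → x % 8 = (m : ℤ) % 8 := by
    intro x m hx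
    have h3 : ((x : ℤ) : ZMod 8) = ((m : ℤ) : ZMod 8) := by rw [hx]; push_cast; rfl
    exact (ZMod.intCast_eq_intCast_iff' x m 8).1 h3
  have u1 : IsUnit (1 : GaussianInt) := isUnit_one
  have u2 : IsUnit (-1 : GaussianInt) := isUnit_one.neg
  have u3 : IsUnit (⟨0, 1⟩ : GaussianInt) := IsUnit.of_mul_eq_one (⟨0, -1⟩ : GaussianInt) (by decide)
  have u4 : IsUnit (⟨0, -1⟩ : GaussianInt) := IsUnit.of_mul_eq_one (⟨0, 1⟩ : GaussianInt) (by decide)
  have hr3 : ((⟨0, 1⟩ : GaussianInt) * ⟨a, b⟩) = ⟨-b, a⟩ := by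
    ext <;> simp [Zsqrtd.re_mul, Zsqrtd.im_mul]
  have hr4 : ((⟨0, -1⟩ : GaussianInt) * ⟨a, b⟩) = ⟨b, -a⟩ := by
    ext <;> simp [Zsqrtd.re_mul, Zsqrtd.im_mul]
  rcases key _ _ h1 with ⟨hx, hy⟩ | ⟨hy, hx⟩
  · have hy' : b % 4 = 0 := by
      rcases hy with hy | hy
      · have := hcast b 0 (by rw [hy]; rfl); omega
      · have := hcast b 4 (by rw [hy]; rfl); omega
    have hx' : a % 4 = 1 ∨ a % 4 = 3 := by
      rcases hx with hx | hx | hx | hx
      · have := hcast a 1 (by rw [hx]; rfl); omega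
      · have := hcast a 3 (by rw [hx]; rfl); omega
      · have := hcast a 5 (by rw [hx]; rfl); omega
      · have := hcast a 7 (by rw [hx]; rfl); omega
    rcases hx' with hx' | hx'
    · refine ⟨1, u1, ?_, ?_⟩ <;> rw [one_mul]
      · show (4 : ℤ) ∣ a - 1; omega
      · show (4 : ℤ) ∣ b; omega
    · refine ⟨-1, u2, ?_, ?_⟩ <;> rw [neg_one_mul]
      · show (4 : ℤ) ∣ -a - 1; omega
      · show (4 : ℤ) ∣ -b; omega
  · have hx' : a % 4 = 0 := by
      rcases hx with hy | hy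
      · have := hcast a 0 (by rw [hy]; rfl); omega
      · have := hcast a 4 (by rw [hy]; rfl); omega
    have hy' : b % 4 = 1 ∨ b % 4 = 3 := by
      rcases hy with hx | hx | hx | hx
      · have := hcast b 1 (by rw [hx]; rfl); omega
      · have := hcast b 3 (by rw [hx]; rfl); omega
      · have := hcast b 5 (by rw [hx]; rfl); omega
      · have := hcast b 7 (by rw [hx]; rfl); omega
    rcases hy' with hy' | hy'
    · refine ⟨⟨0, -1⟩, u4, ?_, ?_⟩ <;> rw [hr4]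
      · show (4 : ℤ) ∣ b - 1; omega
      · show (4 : ℤ) ∣ -a; omega
    · refine ⟨⟨0, 1⟩, u3, ?_, ?_⟩ <;> rw [hr3]
      · show (4 : ℤ) ∣ -b - 1; omega
      · show (4 : ℤ) ∣ a; omega

/-- the prime of `ℤ[i]` -/
theorem exists_pi {L : Type} [Field L] [NumberField L] {M : ℕ} (hM : 2 ≤ M)
    {ζ r : L} (hζ : IsPrimitiveRoot ζ (2 ^ (M + 3))) (hr : r ^ 2 = 1 + ζ ^ (2 ^ (M + 1)))
    {g : Gal(L/ℚ)} (hg : g ζ = ζ) (hgr : g r = -r) {p : ℕ} (hp : p.Prime) (hp2 : p ≠ 2)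
    (hx : xp L g p ≠ 0) :
    ∃ π : GaussianInt, Prime π ∧ (4 : GaussianInt) ∣ π - 1 ∧ (2 : ℤ) ^ (M + 3) ∣ π.norm - 1 ∧
      ¬ (4 * ⟨1, 1⟩ : GaussianInt) ∣ π - 1 ∧ π.norm.natAbs = p := by
  classical
  have hfact : Fact p.Prime := ⟨hp⟩
  unfold xp at hx
  rw [dif_pos hp] at hx
  obtain ⟨⟨φ, hφ⟩⟩ : Nonempty {φ : 𝓞 L →+* AlgebraicClosure (ZMod p) // HasFrob p φ g} := by
    by_contra hcon
    rw [not_nonempty_iff] at hcon
    exact hx (@Nat.card_of_isEmpty _ hcon)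
  have hchar : ∀ n : ℤ, ((n : ℤ) : AlgebraicClosure (ZMod p)) = 0 → (p : ℤ) ∣ n := by
    intro n hn
    have h1 : CharP (AlgebraicClosure (ZMod p)) p := inferInstance
    exact (CharP.intCast_eq_zero_iff _ p n).1 hn
  have h20 : (2 : AlgebraicClosure (ZMod p)) ≠ 0 := by
    intro h
    have h1 := hchar 2 (by exact_mod_cast h)
    have h2 : p ∣ 2 := by exact_mod_cast h1
    exact hp2 ((Nat.prime_dvd_prime_iff_eq hp Nat.prime_two).1 h2)
  -- the integers
  have hζi : IsIntegral ℤ ζ := hζ.isIntegral (by positivity)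
  let z : 𝓞 L := ⟨ζ, hζi⟩
  have hri : IsIntegral ℤ r := by
    have h1 : IsIntegral ℤ (r ^ 2) := by
      rw [hr]
      exact isIntegral_one.add (hζi.pow _)
    exact h1.of_pow (by norm_num)
  let ρ : 𝓞 L := ⟨r, hri⟩
  have hgz : g • z = z := RingOfIntegers.ext hg
  have hgρ : g • ρ = -ρ := RingOfIntegers.ext (by
    show g r = ((-ρ : 𝓞 L) : L)
    rw [hgr]; rfl)
  have hρ2 : ρ ^ 2 = 1 + z ^ (2 ^ (M + 1)) := RingOfIntegers.ext (by
    show ((ρ ^ 2 : 𝓞 L) : L) = ((1 + z ^ (2 ^ (M + 1)) : 𝓞 L) : L)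
    push_cast
    exact hr)
  have hzh : z ^ (2 ^ (M + 2)) = -1 := RingOfIntegers.ext (by
    push_cast
    show ζ ^ (2 ^ (M + 2)) = -1
    have h4 : (ζ ^ (2 ^ (M + 2))) ^ 2 = 1 := by
      rw [← pow_mul, ← pow_succ]
      exact hζ.pow_eq_one
    have h5 : ζ ^ (2 ^ (M + 2)) ≠ 1 := hζ.pow_ne_one_of_pos_of_lt (by positivity)
      (Nat.pow_lt_pow_right (by norm_num) (by omega))
    have h6 : (ζ ^ (2 ^ (M + 2)) - 1) * (ζ ^ (2 ^ (M + 2)) + 1) = 0 := by linear_combination h4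
    rcases mul_eq_zero.1 h6 with h7 | h7
    · exact absurd (sub_eq_zero.1 h7) h5
    · exact eq_neg_of_add_eq_zero_left h7)
  -- `p = 1` modulo `2 ^ (M + 3)`
  have hz0 : φ z ≠ 0 := by
    intro h
    have h1 := congrArg φ hzh
    rw [map_pow, h, zero_pow (by positivity), map_neg, map_one] at h1
    exact one_ne_zero (neg_eq_zero.1 h1.symm)
  have hord : orderOf (φ z) = 2 ^ (M + 3) := by
    apply orderOf_eq_prime_pow (p := 2) (n := M + 2)
    · rw [← map_pow, hzh, map_neg, map_one]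
      intro h
      apply h20
      linear_combination -h
    · rw [pow_succ, pow_mul, ← map_pow, hzh, map_neg, map_one]
      norm_num
  have hzp : φ z ^ p = φ z := by
    rw [← hφ z, hgz]
  have hp1 : 2 ^ (M + 3) ∣ p - 1 := by
    rw [← hord]
    apply orderOf_dvd_of_pow_eq_one
    apply mul_left_cancel₀ hz0
    rw [mul_one, ← pow_succ', Nat.sub_add_cancel hp.one_lt.le, hzp]
  have hp1' : (2 : ℤ) ^ (M + 3) ∣ (p : ℤ) - 1 := by
    obtain ⟨s, hs⟩ := hp1
    refine ⟨s, ?_⟩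
    have h1 := hp.one_lt
    have h2 : p = 2 ^ (M + 3) * s + 1 := by omega
    rw [h2]
    push_cast
    ring
  have h32 : (32 : ℤ) ∣ (p : ℤ) - 1 := dvd_trans (by
    have : (2 : ℤ) ^ 5 ∣ 2 ^ (M + 3) := pow_dvd_pow 2 (by omega)
    norm_num at this
    exact this) hp1'
  -- the map from `ℤ[i]`
  have hII : (z ^ (2 ^ (M + 1))) * (z ^ (2 ^ (M + 1))) = ((-1 : ℤ) : 𝓞 L) := by
    rw [← pow_add, ← two_mul, ← pow_succ', hzh]
    push_cast
    rfl
  let jO : GaussianInt →+* 𝓞 L := Zsqrtd.lift ⟨z ^ (2 ^ (M + 1)), hII⟩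
  have hjO : ∀ x : GaussianInt, jO x = (x.re : 𝓞 L) + (x.im : 𝓞 L) * z ^ (2 ^ (M + 1)) :=
    fun x => rfl
  have hgj : ∀ x, g • jO x = jO x := by
    intro x
    rw [hjO, smul_add, smul_mul', smul_pow', hgz]
    have h1 : ∀ n : ℤ, g • ((n : ℤ) : 𝓞 L) = ((n : ℤ) : 𝓞 L) := fun n =>
      map_intCast (MulSemiringAction.toRingHom Gal(L/ℚ) (𝓞 L) g) n
    rw [h1, h1]
  obtain ⟨ψ, hψ⟩ : ∃ ψ : GaussianInt →+* AlgebraicClosure (ZMod p), ∀ x, ψ x = φ (jO x) :=
    ⟨φ.comp jO, fun x => rfl⟩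
  have hψp : ∀ x, ψ x ^ p = ψ x := by
    intro x
    have h1 := hφ (jO x)
    rw [hgj] at h1
    rw [hψ]
    exact h1.symm
  obtain ⟨q0, hq0⟩ := (IsPrincipalIdealRing.principal (RingHom.ker ψ)).principal
  have hmem : ∀ x : GaussianInt, ψ x = 0 ↔ q0 ∣ x := by
    intro x
    rw [← RingHom.mem_ker, hq0]
    exact Ideal.mem_span_singleton
  have hpψ : ψ (p : GaussianInt) = 0 := by
    rw [map_natCast]
    exact CharP.cast_eq_zero _ p
  have hq00 : q0 ≠ 0 := by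
    rintro rfl
    have h1 := (hmem _).1 hpψ
    rw [zero_dvd_iff] at h1
    exact hp.ne_zero (by exact_mod_cast h1)
  have hq0p : Prime q0 := by
    rw [← Ideal.span_singleton_prime hq00]
    have h1 : (RingHom.ker ψ).IsPrime := RingHom.ker_isPrime ψ
    rw [hq0] at h1
    exact h1
  -- its norm
  have hI : ψ ⟨0, 1⟩ ^ 2 = -1 := by
    rw [← map_pow, ← map_one ψ, ← map_neg]; congr 1
  have hnorm : q0.norm.natAbs = p := by
    have hd : q0 ∣ (p : GaussianInt) := (hmem _).1 hpψ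
    obtain ⟨q1, hq1⟩ := hd
    have hn : q0.norm.natAbs * q1.norm.natAbs = p ^ 2 := by
      have h1 := congrArg Zsqrtd.norm hq1
      rw [Zsqrtd.norm_mul] at h1
      have h2 : ((p : GaussianInt)).norm = (p : ℤ) * p := Zsqrtd.norm_natCast p
      rw [h2] at h1
      rw [← Int.natAbs_mul, ← h1, Int.natAbs_mul, Int.natAbs_natCast, pow_two]
    obtain ⟨i, hi, hi2⟩ := (Nat.dvd_prime_pow hp).1 (Dvd.intro _ hn)
    interval_cases i
    · exfalso
      rw [pow_zero] at hi2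
      exact hq0p.not_isUnit (Zsqrtd.norm_eq_one_iff.1 hi2)
    · rw [pow_one] at hi2
      exact hi2
    · exfalso
      have h3 : q1.norm.natAbs = 1 := by
        rw [hi2] at hn
        have h4 : 0 < p ^ 2 := pow_pos hp.pos 2
        exact Nat.eq_of_mul_eq_mul_left h4 (by rw [hn, mul_one])
      have h4 : IsUnit q1 := Zsqrtd.norm_eq_one_iff.1 h3
      have h5 : (p : GaussianInt) ∣ q0 := by
        obtain ⟨u, rfl⟩ := h4
        refine ⟨((u⁻¹ : GaussianIntˣ) : GaussianInt), ?_⟩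
        rw [hq1, mul_assoc, Units.mul_inv, mul_one]
      -- a root of `-1` modulo `p`
      have h4p : (4 : ℤ) ∣ (p : ℤ) - 1 := dvd_trans (by norm_num) h32
      have h6 : p % 4 ≠ 3 := by omega
      obtain ⟨a, ha⟩ := (ZMod.exists_sq_eq_neg_one_iff (p := p)).2 h6
      obtain ⟨a', rfl⟩ := ZMod.intCast_surjective a
      have h7 : ((a' : ℤ) : AlgebraicClosure (ZMod p)) ^ 2 = -1 := by
        have h8 := congrArg (algebraMap (ZMod p) (AlgebraicClosure (ZMod p))) ha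
        rw [map_neg, map_one, map_mul, map_intCast] at h8
        rw [pow_two]
        exact h8.symm
      have h9 : (ψ ⟨0, 1⟩ - ((a' : ℤ) : AlgebraicClosure (ZMod p))) *
          (ψ ⟨0, 1⟩ + ((a' : ℤ) : AlgebraicClosure (ZMod p))) = 0 := by
        linear_combination hI - h7
      have h10 : ∀ b : ℤ, ψ ⟨b, 1⟩ = 0 → False := by
        intro b hb
        have h11 := h5.trans ((hmem _).1 hb)
        obtain ⟨⟨x, y⟩, hxy⟩ := h11
        have h12 := congrArg Zsqrtd.im hxy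
        have h13 : (1 : ℤ) = p * y := by
          simpa [Zsqrtd.im_mul] using h12
        have h14 : (p : ℤ) ∣ 1 := ⟨y, h13⟩
        exact hp.one_lt.ne' (by
          have := Int.natAbs_dvd_natAbs.2 h14
          simpa using this)
      rcases mul_eq_zero.1 h9 with h11 | h11
      · apply h10 (-a')
        have h12 : (⟨-a', 1⟩ : GaussianInt) = ⟨0, 1⟩ - (a' : GaussianInt) := by
          ext <;> simp
        rw [h12, map_sub, map_intCast]
        exact h11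
      · apply h10 a'
        have h12 : (⟨a', 1⟩ : GaussianInt) = ⟨0, 1⟩ + (a' : GaussianInt) := by
          ext <;> simp
        rw [h12, map_add, map_intCast]
        exact h11
  have hnorm' : q0.norm = p := by
    have h1 : 0 ≤ q0.norm := GaussianInt.norm_nonneg q0
    omega
  obtain ⟨u, hu, hu1, hu2⟩ := exists_unit q0 (by rw [hnorm']; exact dvd_trans (by norm_num) h32)
  have hass : Associated q0 (u * q0) := by
    obtain ⟨v, rfl⟩ := hu
    exact ⟨v, mul_comm _ _⟩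
  have hmem' : ∀ x : GaussianInt, ψ x = 0 ↔ u * q0 ∣ x :=
    fun x => (hmem x).trans hass.dvd_iff_dvd_left
  have hπn : (u * q0).norm = p := by
    rw [Zsqrtd.norm_mul, hnorm']
    have h1 : u.norm.natAbs = 1 := Zsqrtd.norm_eq_one_iff.2 hu
    have h2 : 0 ≤ u.norm := GaussianInt.norm_nonneg u
    have h3 : u.norm = 1 := by omega
    rw [h3, one_mul]
  have hpr : Pr (u * q0) := ⟨hass.prime hq0p, hu1, hu2, by rw [hπn]; exact h32⟩
  have hnsq : ¬ Sqm (u * q0) ⟨1, 1⟩ := by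
    rintro ⟨y, hy⟩
    have h1 := (hmem' _).2 hy
    rw [map_sub, map_pow, sub_eq_zero] at h1
    have h2 : φ ρ ^ 2 = ψ ⟨1, 1⟩ := by
      rw [← map_pow, hρ2, hψ, hjO]
      push_cast
      rw [one_mul]
    have h3 : (φ ρ - ψ y) * (φ ρ + ψ y) = 0 := by linear_combination h2 + h1
    have h4 : φ ρ ^ p = φ ρ := by
      rcases mul_eq_zero.1 h3 with h5 | h5
      · rw [sub_eq_zero.1 h5, hψp]
      · have h6 : φ ρ = -ψ y := eq_neg_of_add_eq_zero_left h5
        have h7 : Odd p := hp.odd_of_ne_two hp2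
        rw [h6, h7.neg_pow, hψp]
    have h5 : φ ρ ^ p = -φ ρ := by
      rw [← hφ ρ, hgρ, map_neg]
    have h6 : φ ρ = 0 := by
      have h7 : 2 * φ ρ = 0 := by linear_combination h5 - h4
      exact (mul_eq_zero.1 h7).resolve_left h20
    rw [h6] at h2
    apply h20
    have h7 : (2 : GaussianInt) = ⟨1, 1⟩ * ⟨1, -1⟩ := by decide
    have h8 := congrArg ψ h7
    rw [map_mul, ← h2, map_ofNat] at h8
    rw [h8]; ring
  obtain ⟨t, ht⟩ : (4 : GaussianInt) ∣ u * q0 - 1 := by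
    obtain ⟨s1, hs1⟩ := hu1
    obtain ⟨s2, hs2⟩ := hu2
    refine ⟨⟨s1, s2⟩, ?_⟩
    ext
    · simp only [Zsqrtd.re_sub, Zsqrtd.re_one]
      rw [hs1]; simp [Zsqrtd.re_mul]
    · simp only [Zsqrtd.im_sub, Zsqrtd.im_one]
      rw [hs2]; simp [Zsqrtd.im_mul]
  refine ⟨u * q0, hpr.prime, ⟨t, ht⟩, by rw [hπn]; exact hp1', ?_, by rw [hπn]; simp⟩
  rintro ⟨s, hs⟩
  have h1 : Pool.Agent.Y715.Sel.bj (J := Fin 1) (fun _ => u * q0) 0 = Pool.Agent.Y715.Sel.rd t :=
    Pool.Agent.Y715.Sel.bj_eq (fun _ => hpr) (t := fun _ => t) (fun _ => by linear_combination ht) 0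
  have h2 : t = Pool.Agent.Y715.Gi.lam * s := by
    have h3 : (4 : GaussianInt) ≠ 0 := by decide
    apply mul_left_cancel₀ h3
    rw [← ht, hs]
    show 4 * ⟨1, 1⟩ * s = 4 * (⟨1, 1⟩ * s)
    ring
  rw [Pool.Agent.Y715.Sel.rd_lam (t := t) ⟨s, h2⟩] at h1
  exact hnsq (qs_zero.1 h1)

/-- there are infinitely many of these primes -/
theorem infinite_pi (N : ℕ) (hN : 5 ≤ N) :
    {π : GaussianInt | Prime π ∧ (4 : GaussianInt) ∣ π - 1 ∧ (2 : ℤ) ^ N ∣ π.norm - 1 ∧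
      ¬ (4 * ⟨1, 1⟩ : GaussianInt) ∣ π - 1}.Infinite := by
  obtain ⟨M, rfl⟩ : ∃ M, N = M + 3 := ⟨N - 3, by omega⟩
  obtain ⟨L, _, _, _, ζ, r, hζ, hr⟩ := exists_L (M + 1)
  obtain ⟨g, hg, hgr⟩ := exists_g (M := M) hζ hr
  intro hfin
  apply infinite_frob L g
  have hB : ({2} ∪ (hfin.toFinset.image (fun q : GaussianInt => q.norm.natAbs) : Finset ℕ) :
      Set ℕ).Finite := (Set.finite_singleton _).union (Finset.finite_toSet _)
  refine hB.subset ?_
  rintro p ⟨hp, hxp⟩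
  by_cases hp2 : p = 2
  · left; exact hp2
  right
  obtain ⟨π, h1, h2, h3, h4, h5⟩ := exists_pi (by omega) hζ hr hg hgr hp hp2 hxp
  rw [Finset.mem_coe, Finset.mem_image]
  exact ⟨π, hfin.mem_toFinset.2 ⟨h1, h2, h3, h4⟩, h5⟩

end Pool.Agent.R390.IP
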