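import Pool.Agent.R390.Abs

/-!
# No invariants in the rational Tate module of a curve with finitely many points
-/

set_option autoImplicit false

namespace Pool.Agent.R390

open WeierstrassCurve
open Pool.Agent.TH841.SH.D (Gal act Pt)
open Pool.Agent.Y667.BKP (PSeq IsV)

/-- no invariants in the rational Tate module if the group of points is finite -/
theorem noinv {F : Type} [Field F] [NumberField F] {W : WeierstrassCurve F} {p : ℕ}
    (hfin : Finite W.toAffine.Point) (x : PSeq W) (hx : IsV p W x)
    (hfix : ∀ (σ : Gal F) (n : ℕ), act W σ.toAlgHom (x n) = x n) : ∀ n, x n = 0 := by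
  obtain ⟨j, -, -, hj⟩ := Pool.Agent.Y667.BKP.exists_rat W
  refine Pool.Agent.R390.Abs.no_inv (p := p) (⊤ : AddSubgroup (Pt W (AlgebraicClosure F)))
    (fun σ : Gal F => act W σ.toAlgHom) ?_ x (fun _ => AddSubgroup.mem_top _)
    (fun n => (hx n).1) (fun n => (hx n).2) hfix
  refine (Set.finite_range j).subset ?_
  rintro P ⟨-, hP⟩
  obtain ⟨q, hq⟩ := hj P hP
  exact ⟨q, hq⟩

end Pool.Agent.R390
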