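import Mathlib

/-!
# The absolute Galois group of the real numbers
-/

set_option autoImplicit false

namespace Pool.Agent.R390.RealGal

/-- the automorphisms of an algebraic closure of the real numbers: there are at most two, and they are
involutions -/
theorem cases : ∃ c : AlgebraicClosure ℝ ≃ₐ[ℝ] AlgebraicClosure ℝ, (∀ x, c (c x) = x) ∧
    ∀ τ : AlgebraicClosure ℝ ≃ₐ[ℝ] AlgebraicClosure ℝ, τ = 1 ∨ τ = c := by
  have hC : IsAlgClosure ℝ ℂ := ⟨inferInstance, inferInstance⟩
  let e : AlgebraicClosure ℝ ≃ₐ[ℝ] ℂ := IsAlgClosure.equiv ℝ (AlgebraicClosure ℝ) ℂ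
  refine ⟨(e.trans Complex.conjAe).trans e.symm, fun x => ?_, fun τ => ?_⟩
  · simp
  · rcases Complex.real_algHom_eq_id_or_conj ((e.symm.trans (τ.trans e)).toAlgHom) with h | h
    · left
      apply AlgEquiv.ext
      intro x
      have h1 := DFunLike.congr_fun h (e x)
      have h2 : e (τ (e.symm (e x))) = e x := h1
      rw [e.symm_apply_apply] at h2
      exact e.injective h2
    · right
      apply AlgEquiv.ext
      intro x
      have h1 := DFunLike.congr_fun h (e x)
      have h2 : e (τ (e.symm (e x))) = (starRingEnd ℂ) (e x) := h1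
      rw [e.symm_apply_apply] at h2
      show τ x = e.symm ((starRingEnd ℂ) (e x))
      rw [← h2, e.symm_apply_apply]

end Pool.Agent.R390.RealGal
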