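import Pool.Agent.Y715.Pf
import Pool.Agent.R390.Abs

/-!
# The Bloch–Kato Selmer group `H¹_f(K, V_2 A)` of the twists `A` of `E ⊗ ℤ[ζ]`, `K = ℚ(i)`
-/

set_option autoImplicit false

namespace Pool.Agent.R390.TwoCM

open Pool.Agent.Y715.St
open scoped Classical

/-- The rational Tate module `V_2 A = T_2 A ⊗ ℚ_2`: the sequences `x₀, x₁, …` of elements of
2-power order of `A(ℚ̄)` with `2 xₙ₊₁ = xₙ` (`xₙ` is the class of `2⁻ⁿ x` in
`V_2 A / T_2 A = A[2 ^ ∞]`). -/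
def InV (k : ℕ) (i₀ : QBar) (x : ℕ → ZMod (2 ^ k) → Pts QBar) : Prop :=
  ∀ n, InA k i₀ (x n) ∧ 2 • x (n + 1) = x n ∧ ∃ m : ℕ, 2 ^ m • x n = 0

/-- `H⁰(K, V_2 A) = 0`: the elements of `V_2 A` fixed by the absolute Galois group of `K` are zero. -/
def NoInvariants {k : ℕ} {i₀ : QBar} (a : GalK i₀ → ZMod (2 ^ k)) : Prop :=
  ∀ x, InV k i₀ x → (∀ σ n, twist (homK σ) (a σ) (x n) = x n) → ∀ n, x n = 0

/-- `c` is a continuous `1`-cocycle of the absolute Galois group of `K` with values in `V_2 A`. -/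
def IsCocycleV {k : ℕ} {i₀ : QBar} (a : GalK i₀ → ZMod (2 ^ k))
    (c : GalK i₀ → ℕ → ZMod (2 ^ k) → Pts QBar) : Prop :=
  (∀ n, IsLocallyConstant fun σ => c σ n) ∧ (∀ σ, InV k i₀ (c σ)) ∧
    ∀ σ τ n, c (σ * τ) n = c σ n + twist (homK σ) (a σ) (c τ n)

/-- At every finite place of `K` (given by an embedding `ι` of `ℚ̄` in the algebraic closure of
`ℚ_p`) the restriction of `c` to the decomposition group is in the image of the Kummer map
`A(K_v) ⊗ ℚ_2 → H¹(K_v, V_2 A)`: there are `Q₀, Q₁, …` in `A` over the algebraic closure of `ℚ_p` with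
`2 Qₙ₊₁ = Qₙ` and `(c τ)ₙ = τ Qₙ - Qₙ`. -/
def LocallyKummer {k : ℕ} {i₀ : QBar} (a : GalK i₀ → ZMod (2 ^ k))
    (c : GalK i₀ → ℕ → ZMod (2 ^ k) → Pts QBar) : Prop :=
  ∀ (p : ℕ) [Fact p.Prime] (ι : QBar →ₐ[ℚ] PadicAlgCl p),
    ∃ Q : ℕ → ZMod (2 ^ k) → Pts (PadicAlgCl p),
      (∀ n, InA k (ι i₀) (Q n) ∧ 2 • Q (n + 1) = Q n) ∧
      ∀ τ σ, Restricts ι τ σ → ∀ n, twist ι 0 (c σ n) = twist (homL τ) (a σ) (Q n) - Q n

/-- `H¹_f(K, V_2 A) = 0`: every continuous cocycle with values in `V_2 A` that is locally in the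
image of the Kummer map is a coboundary. -/
def SelmerZero {k : ℕ} {i₀ : QBar} (a : GalK i₀ → ZMod (2 ^ k)) : Prop :=
  ∀ c, IsCocycleV a c → LocallyKummer a c →
    ∃ x, InV k i₀ x ∧ ∀ σ n, c σ n = twist (homK σ) (a σ) (x n) - x n

section

open Pool.Agent.Y715.Df Pool.Agent.Y715.Pf Pool.Agent.Y715.Gi

variable {k : ℕ} {i₀ : QBar}

/-- the algebraic side -/
theorem alg_side (hi : i₀ ^ 2 = -1) (a : GalK i₀ → ZMod (2 ^ k))
    (hfin : (pointsK a).Finite)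
    (hsha : ∀ (f : GalK i₀ → ZMod (2 ^ k) → Pts QBar) (n : ℕ), IsCocycle a f →
      LocallyTrivial a f → IsCoboundary a (fun σ => (2 ^ n) • f σ) → IsCoboundary a f) :
    NoInvariants a ∧ SelmerZero a := by
  have hset : Pool.Agent.R390.Abs.FixIn (MM hi k) (fun σ => tw (gh σ) (a σ)) = pointsK a := by
    ext P
    exact and_congr (inA_iff hi P).symm Iff.rfl
  have hfin' : (Pool.Agent.R390.Abs.FixIn (MM hi k) (fun σ => tw (gh σ) (a σ))).Finite := by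
    rw [hset]
    exact hfin
  constructor
  · intro x hx hfix
    exact Pool.Agent.R390.Abs.no_inv (p := 2) (MM hi k) (fun σ => tw (gh σ) (a σ)) hfin' x
      (fun n => (inA_iff hi _).1 (hx n).1) (fun n => (hx n).2.1) (fun n => (hx n).2.2)
      (fun σ n => hfix σ n)
  · intro c hc hloc
    obtain ⟨h1, h2, h3⟩ := hc
    have hcob : ∀ n, ∃ P ∈ MM hi k, ∀ σ, c σ n = tw (gh σ) (a σ) P - P := by
      intro n
      obtain ⟨K, hK⟩ := Pool.Agent.R390.Abs.bdd_tor (p := 2) (h1 n) (fun σ => (h2 σ n).2.2)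
      obtain ⟨P, hP1, hP2⟩ := hsha (fun σ => c σ n) K ⟨h1 n, fun σ => (h2 σ n).1, fun σ τ => h3 σ τ n⟩
        (fun p _ ι => by
          obtain ⟨Q, hQ1, hQ2⟩ := hloc p ι
          exact ⟨Q n, (hQ1 n).1, fun τ σ hσ => hQ2 τ σ hσ n⟩)
        ⟨0, (inA_iff hi _).2 (zero_mem _), fun σ => by
          have e0 : twist (homK σ) (a σ) (0 : ZMod (2 ^ k) → Pts QBar) = 0 :=
            map_zero (tw (gh σ) (a σ))
          rw [e0, sub_zero]
          exact hK σ⟩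
      exact ⟨P, (inA_iff hi P).1 hP1, hP2⟩
    obtain ⟨x, hx1, hx2⟩ := Pool.Agent.R390.Abs.lift_sub (p := 2) (MM hi k)
      (fun σ => tw (gh σ) (a σ))
      (fun σ P hP => tw_mem (gh σ) (a σ) hi hi (gk_fix σ) hP) Nat.prime_two hfin' c
      (fun σ n => (inA_iff hi _).1 (h2 σ n).1) (fun σ n => (h2 σ n).2.1)
      (fun n => Pool.Agent.R390.Abs.bdd_tor (p := 2) (h1 n) (fun σ => (h2 σ n).2.2)) hcob
    exact ⟨x, fun n => ⟨(inA_iff hi _).2 (hx1 n).1, (hx1 n).2.1, (hx1 n).2.2⟩, hx2⟩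

end

/-! ### The analytic side -/

/-- the function `s ↦ conj (F (conj s))` is entire if `F` is -/
theorem conj_diff {F : ℂ → ℂ} (hF : Differentiable ℂ F) :
    Differentiable ℂ fun s => (starRingEnd ℂ) (F ((starRingEnd ℂ) s)) := by
  intro s
  have h := (hF (star s)).star_star
  rw [star_star] at h
  exact h

theorem LA_diff {k : ℕ} {F : ℕ → ℂ → ℂ} (hF : ∀ t, Odd t → Differentiable ℂ (F t)) :
    Differentiable ℂ (LA k F) := by
  unfold LA
  refine Differentiable.fun_finsetProd fun t ht => ?_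
  have h1 : t % 4 = 1 := (Finset.mem_filter.1 ht).2
  have ht1 : Odd t := Nat.odd_iff.2 (by omega)
  exact (hF t ht1).mul (conj_diff (hF t ht1))

theorem LA_ne {k : ℕ} {F : ℕ → ℂ → ℂ} (hF : ∀ t, Odd t → F t 1 ≠ 0) : LA k F 1 ≠ 0 := by
  unfold LA
  rw [Finset.prod_ne_zero_iff]
  intro t ht
  have h1 : t % 4 = 1 := (Finset.mem_filter.1 ht).2
  have ht1 : Odd t := Nat.odd_iff.2 (by omega)
  refine mul_ne_zero (hF t ht1) ?_
  rw [map_one]
  exact (map_ne_zero _).2 (hF t ht1)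

end Pool.Agent.R390.TwoCM
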